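import Pool.Agent.Q255.TQ.Stm

set_option autoImplicit false

/-! # Project TQ (helper255), job AFE: the central value as a rapidly convergent series -/

namespace Pool.Agent.Q150.TQ

open Finset Filter Topology MeasureTheory Pool.Agent.H306R2.RZ Pool.Agent.H306R2.RG
open Pool.Agent.Q122.FM (kron IsFund LHalf IG kr2 S_REP S_FDD)
open Pool.Agent.Q255.TQ (V S_VP S_AFE)

noncomputable section

theorem kr2_abs (D : ℤ) : |((kr2 D : ℤ) : ℝ)| ≤ 1 := by
  unfold kr2
  split_ifs <;> simp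

theorem jac_abs (D : ℤ) (m : ℕ) : |((jacobiSym D m : ℤ) : ℝ)| ≤ 1 := by
  rcases jacobiSym.trichotomy D m with h | h | h <;> rw [h] <;> simp

theorem kron_abs (D : ℤ) (m : ℕ) : |((kron D m : ℤ) : ℝ)| ≤ 1 := by
  unfold kron
  push_cast
  rw [abs_mul, abs_pow]
  exact mul_le_one₀ (pow_le_one₀ (abs_nonneg _) (kr2_abs D)) (abs_nonneg _) (jac_abs D _)

theorem fact_two (i m : ℕ) (hm : Odd m) : (2 ^ i * m).factorization 2 = i := by
  have hm0 : m ≠ 0 := by
    rintro rfl
    simp at hm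
  rw [Nat.factorization_mul (by positivity) hm0, Finsupp.add_apply,
    Nat.Prime.factorization_pow Nat.prime_two, Finsupp.single_eq_same,
    Nat.factorization_eq_zero_of_not_dvd, add_zero]
  rw [Nat.odd_iff] at hm
  omega

theorem kron_two (D : ℤ) (i m : ℕ) (hm : Odd m) :
    kron D (2 ^ i * m) = kr2 D ^ i * jacobiSym D m := by
  unfold kron
  rw [fact_two i m hm, Nat.mul_div_cancel_left _ (by positivity)]

theorem jac_four (k : ℤ) (m : ℕ) (hm : Odd m) : jacobiSym (4 * k) m = jacobiSym k m := by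
  rw [jacobiSym.mul_left]
  have h1 : jacobiSym 4 m = 1 := by
    have h2 : (4 : ℤ) = 2 ^ 2 := by norm_num
    rw [h2]
    refine jacobiSym.sq_one' ?_
    have h3 : Nat.Coprime 2 m := by
      rw [Nat.coprime_two_left]
      exact hm
    simpa [Int.gcd] using h3
  rw [h1, one_mul]

/-- the data of a fundamental discriminant -/
theorem family (ε : ℤ) (hε : ε = 1 ∨ ε = -1) (n : ℕ) (hn : 2 ≤ n) (hf : IsFund (ε * (n : ℤ)))
    (hfdd : S_FDD) : ∃ (φ : FD) (d : ℕ), Fam φ ∧ φ.A d ∧ Squarefree d ∧ φ.r * d = n ∧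
      φ.a = Pool.Agent.Q255.TQ.par ε ∧
      LHalf (ε * (n : ℤ)) = LLg φ d (1 / 2) ∧
      φ.η = ((kr2 (ε * (n : ℤ)) : ℤ) : ℝ) ∧
      ∀ m : ℕ, Odd m → js (φ.e * (d : ℤ)) m = ((jacobiSym (ε * (n : ℤ)) m : ℤ) : ℝ) := by
  have h0 := hfdd.2 ε hε n hn
  rw [if_pos hf] at h0
  have hpar : (if ε = 1 then 0 else 1) = Pool.Agent.Q255.TQ.par ε := rfl
  rcases hf with ⟨h1, h2⟩ | ⟨m, h1, h2, h3⟩
  · -- odd discriminants
    have hnodd : n % 2 = 1 := by
      rcases hε with rfl | rfl <;> omega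
    have hsqn : Squarefree n := by
      rw [← Int.squarefree_natAbs] at h2
      have h4 : (ε * (n : ℤ)).natAbs = n := by
        rcases hε with rfl | rfl <;> simp
      rwa [h4] at h2
    have hnsq : ¬ IsSquare (ε * (n : ℤ)) := by
      rintro ⟨r, hr⟩
      have h4 : IsUnit r := h2 r ⟨1, by rw [mul_one]; exact hr⟩
      rcases Int.isUnit_iff.1 h4 with rfl | rfl
      · rcases hε with rfl | rfl <;> omega
      · rcases hε with rfl | rfl <;> omega
    have n8 : ¬ 8 ∣ n := by omega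
    have n4 : ¬ 4 ∣ n := by omega
    rw [if_neg (fun h => n8 h.1), if_neg (fun h => n4 h.1), zero_add, zero_add] at h0
    rcases (by omega : (ε * (n : ℤ)) % 8 = 1 ∨ (ε * (n : ℤ)) % 8 = 5) with h8 | h8
    · have hA : (F1 ε 1).A n := ⟨h8, hnsq⟩
      have hB : ¬ (F1 ε 5).A n := by
        rintro ⟨h, -⟩
        omega
      rw [if_pos ⟨hA, hsqn⟩, if_neg (fun h => hB h.1), add_zero] at h0
      refine ⟨F1 ε 1, n, ⟨ε, hε, Or.inr (Or.inr (Or.inl rfl))⟩, hA, hsqn, one_mul n, hpar, h0,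
        ?_, fun m _ => rfl⟩
      simp [F1, kr2, h8]
    · have hA : (F1 ε 5).A n := ⟨h8, hnsq⟩
      have hB : ¬ (F1 ε 1).A n := by
        rintro ⟨h, -⟩
        omega
      have c1 : ¬ ((F1 ε 1).A n ∧ Squarefree n) := fun h => hB h.1
      rw [if_neg c1, if_pos ⟨hA, hsqn⟩, zero_add] at h0
      refine ⟨F1 ε 5, n, ⟨ε, hε, Or.inr (Or.inr (Or.inr rfl))⟩, hA, hsqn, one_mul n, hpar, h0,
        ?_, fun m _ => rfl⟩
      simp [F1, kr2, h8]
  · -- even discriminants
    have n1 : ¬ (F1 ε 1).A n := by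
      rintro ⟨h, -⟩
      omega
    have n5 : ¬ (F1 ε 5).A n := by
      rintro ⟨h, -⟩
      omega
    rw [if_neg (fun h => n1 h.1 : ¬ ((F1 ε 1).A n ∧ _)),
      if_neg (fun h => n5 h.1 : ¬ ((F1 ε 5).A n ∧ _)), add_zero, add_zero] at h0
    have hsqm : Squarefree m.natAbs := Int.squarefree_natAbs.2 h3
    rcases h2 with h2 | h2
    · -- 8 d
      obtain ⟨d, hd⟩ : ∃ d : ℕ, n = 8 * d := ⟨n / 8, by rcases hε with rfl | rfl <;> omega⟩
      have hdodd : d % 2 = 1 := by rcases hε with rfl | rfl <;> omega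
      have hmd : m.natAbs = 2 * d := by rcases hε with rfl | rfl <;> omega
      have hsqd : Squarefree d := by
        rw [hmd] at hsqm
        exact hsqm.squarefree_of_dvd ⟨2, by ring⟩
      have e8 : n / 8 = d := by omega
      have e4 : n / 4 = 2 * d := by omega
      have hA : (F8 ε).A d := Nat.odd_iff.2 hdodd
      have hB : ¬ (F4 ε).A (2 * d) := by
        intro h
        have h' : (ε * ((2 * d : ℕ) : ℤ)) % 4 = 3 := h
        rcases hε with rfl | rfl <;> omega
      rw [e8, e4, if_pos ⟨⟨d, hd⟩, hA, hsqd⟩, if_neg (fun h => hB h.2.1), add_zero] at h0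
      refine ⟨F8 ε, d, ⟨ε, hε, Or.inl rfl⟩, hA, hsqd, hd.symm, hpar, h0, ?_, fun m hm => ?_⟩
      · have h8 : (ε * (n : ℤ)) % 8 = 0 := by rcases hε with rfl | rfl <;> omega
        simp [F8, kr2, h8]
      · unfold js
        have h5 : ε * (n : ℤ) = 4 * ((F8 ε).e * (d : ℤ)) := by
          rw [hd]
          show _ = 4 * (2 * ε * (d : ℤ))
          push_cast
          ring
        rw [h5, jac_four _ _ hm]
    · -- 4 d
      obtain ⟨d, hd⟩ : ∃ d : ℕ, n = 4 * d := ⟨n / 4, by rcases hε with rfl | rfl <;> omega⟩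
      have hdodd : d % 2 = 1 := by rcases hε with rfl | rfl <;> omega
      have hmd : m.natAbs = d := by rcases hε with rfl | rfl <;> omega
      have hsqd : Squarefree d := by
        rw [hmd] at hsqm
        exact hsqm
      have n8 : ¬ 8 ∣ n := by omega
      have e4 : n / 4 = d := by omega
      have hA : (F4 ε).A d := by
        show (ε * (d : ℤ)) % 4 = 3
        rcases hε with rfl | rfl <;> omega
      rw [e4, if_neg (fun h => n8 h.1), if_pos ⟨⟨d, hd⟩, hA, hsqd⟩, zero_add] at h0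
      refine ⟨F4 ε, d, ⟨ε, hε, Or.inr (Or.inl rfl)⟩, hA, hsqd, hd.symm, hpar, h0, ?_,
        fun m hm => ?_⟩
      · have h8 : (ε * (n : ℤ)) % 8 = 4 := by rcases hε with rfl | rfl <;> omega
        simp [F4, kr2, h8]
      · unfold js
        have h5 : ε * (n : ℤ) = 4 * ((F4 ε).e * (d : ℤ)) := by
          rw [hd]
          show _ = 4 * (ε * (d : ℤ))
          push_cast
          ring
        rw [h5, jac_four _ _ hm]

/-- the products of powers of two and odd numbers -/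
theorem tends (g : ℕ → ℝ) (hg : Summable g) (h0 : g 0 = 0) :
    Tendsto (fun N : ℕ => ∑ i ∈ range N, ∑ m ∈ (Icc 1 N).filter Odd, g (2 ^ i * m)) atTop
      (𝓝 (∑' m, g m)) := by
  classical
  obtain ⟨S, hS⟩ : ∃ S : ℕ → Finset ℕ, S = fun N => insert 0 ((range N ×ˢ (Icc 1 N).filter Odd).image
    fun p => 2 ^ p.1 * p.2) := ⟨_, rfl⟩
  have hinj : ∀ N : ℕ, Set.InjOn (fun p : ℕ × ℕ => 2 ^ p.1 * p.2)
      (range N ×ˢ (Icc 1 N).filter Odd : Finset (ℕ × ℕ)) := by
    rintro N ⟨i, m⟩ hp ⟨i', m'⟩ hp' h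
    rw [Finset.mem_coe, Finset.mem_product, Finset.mem_filter] at hp hp'
    have h1 := fact_two i m hp.2.2
    have h2 := fact_two i' m' hp'.2.2
    simp only at h
    rw [h, h2] at h1
    subst h1
    have h3 := Nat.eq_of_mul_eq_mul_left (by positivity) h
    rw [h3]
  have hsum : ∀ N : ℕ, ∑ i ∈ range N, ∑ m ∈ (Icc 1 N).filter Odd, g (2 ^ i * m) =
      ∑ x ∈ S N, g x := by
    intro N
    rw [hS]
    simp only
    rw [Finset.sum_insert, h0, zero_add, Finset.sum_image (hinj N), Finset.sum_product]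
    intro h
    obtain ⟨p, hp, h1⟩ := Finset.mem_image.1 h
    rw [Finset.mem_product, Finset.mem_filter, Finset.mem_Icc] at hp
    have : 0 < 2 ^ p.1 * p.2 := by
      have := hp.2.1.1
      positivity
    omega
  simp only [hsum]
  refine hg.hasSum.comp ?_
  refine tendsto_atTop_finset_of_monotone ?_ ?_
  · intro N N' hN
    rw [hS]
    refine Finset.insert_subset_insert _ (Finset.image_subset_image (Finset.product_subset_product
      (Finset.range_subset_range.2 hN) (Finset.filter_subset_filter _ (Finset.Icc_subset_Icc_right hN))))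
  · intro x
    rcases Nat.eq_zero_or_pos x with rfl | hx
    · refine ⟨0, ?_⟩
      rw [hS]
      exact Finset.mem_insert_self _ _
    · obtain ⟨i, m, hm, rfl⟩ := Nat.exists_eq_two_pow_mul_odd hx.ne'
      refine ⟨2 ^ i * m + i + 1, ?_⟩
      rw [hS]
      refine Finset.mem_insert_of_mem (Finset.mem_image.2 ⟨(i, m), ?_, rfl⟩)
      rw [Finset.mem_product, Finset.mem_filter, Finset.mem_Icc, Finset.mem_range]
      have h1 : m ≤ 2 ^ i * m := Nat.le_mul_of_pos_left _ (by positivity)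
      have h2 : 1 ≤ m := hm.pos
      exact ⟨by simp only; omega, ⟨h2, by simp only; omega⟩, hm⟩

theorem sum_exp (n : ℕ) (hn : 1 ≤ n) :
    Summable (fun m : ℕ => Real.exp (-((m : ℝ) / Real.sqrt n) ^ 2)) := by
  have hn0 : (0 : ℝ) < n := by exact_mod_cast hn
  have h1 : Summable (fun m : ℕ => Real.exp (-(1 / (n : ℝ))) ^ m) :=
    summable_geometric_of_lt_one (Real.exp_pos _).le (by
      rw [Real.exp_lt_one_iff]
      have : 0 < 1 / (n : ℝ) := by positivity
      linarith)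
  refine Summable.of_nonneg_of_le (fun m => (Real.exp_pos _).le) (fun m => ?_) h1
  rw [← Real.exp_nat_mul]
  refine Real.exp_le_exp.2 ?_
  rw [div_pow, Real.sq_sqrt hn0.le]
  have h2 : (m : ℝ) ≤ (m : ℝ) ^ 2 := by
    rcases Nat.eq_zero_or_pos m with h | h
    · rw [h]; simp
    · have : (1 : ℝ) ≤ m := by exact_mod_cast h
      nlinarith
  have h3 : (m : ℝ) / n ≤ (m : ℝ) ^ 2 / n := div_le_div_of_nonneg_right h2 hn0.le
  have h4 : (m : ℝ) * -(1 / (n : ℝ)) = -((m : ℝ) / n) := by ring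
  rw [h4]
  linarith

theorem afe (hV : S_VP) (hrep : S_REP) (hfdd : S_FDD) : S_AFE := by
  intro ε hε n hn hf
  obtain ⟨φ, d, hF, hA, hsq, hrd, hpar, hL, hη, hjs⟩ := family ε hε n hn hf hfdd
  obtain ⟨a, ha⟩ : ∃ a, a = Pool.Agent.Q255.TQ.par ε := ⟨_, rfl⟩
  have ha01 : a = 0 ∨ a = 1 := by
    rw [ha]
    unfold Pool.Agent.Q255.TQ.par
    split_ifs
    · exact Or.inl rfl
    · exact Or.inr rfl
  obtain ⟨hV1, -, C, hC, hV2, -⟩ := hV a ha01
  have hn0 : (0 : ℝ) < n := by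
    have : 0 < n := by omega
    exact_mod_cast this
  have hsn : 0 < Real.sqrt n := Real.sqrt_pos.2 hn0
  -- `gm` is not zero
  have hgm : gm (1 / 2 + (a : ℝ)) ≠ 0 := by
    intro h
    have h1 := (hV1 1 one_pos).1
    unfold V at h1
    rw [h, div_zero, zero_mul] at h1
    exact lt_irrefl _ h1
  obtain ⟨g, hg⟩ : ∃ g : ℕ → ℝ, g = fun m => (kron (ε * (n : ℤ)) m : ℝ) / Real.sqrt m *
    V a ((m : ℝ) / Real.sqrt n) := ⟨_, rfl⟩
  have g0 : g 0 = 0 := by
    rw [hg]
    simp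
  have hgs : Summable g := by
    refine Summable.of_norm_bounded ((sum_exp n (by omega)).mul_left C) fun m => ?_
    rcases Nat.eq_zero_or_pos m with h | h
    · rw [h, g0, norm_zero]
      positivity
    · have hm : (0 : ℝ) < m := by exact_mod_cast h
      have hx : 0 < (m : ℝ) / Real.sqrt n := by positivity
      rw [hg]
      simp only
      rw [norm_mul, norm_div, Real.norm_eq_abs, Real.norm_eq_abs, Real.norm_eq_abs,
        abs_of_pos (hV1 _ hx).1, abs_of_nonneg (Real.sqrt_nonneg _)]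
      have h1 : |((kron (ε * (n : ℤ)) m : ℤ) : ℝ)| / Real.sqrt m ≤ 1 := by
        rw [div_le_one (Real.sqrt_pos.2 hm)]
        refine (kron_abs _ _).trans ?_
        rw [Real.one_le_sqrt]
        exact_mod_cast h
      calc |((kron (ε * (n : ℤ)) m : ℤ) : ℝ)| / Real.sqrt m * V a ((m : ℝ) / Real.sqrt n) ≤
          1 * V a ((m : ℝ) / Real.sqrt n) := mul_le_mul_of_nonneg_right h1 (hV1 _ hx).1.le
        _ ≤ _ := by rw [one_mul]; exact hV2 _ hx
  have hLT : Pool.Agent.Q255.TQ.LT ε (fun _ => 1) n = ∑' m, g m := by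
    unfold Pool.Agent.Q255.TQ.LT
    rw [hg, ← ha]
    refine tsum_congr fun m => ?_
    rw [one_mul]
  have h1 := tends g hgs g0
  have h2 := hrep φ hF d hA hsq
  have h3 : ∀ N : ℕ, Pool.Agent.Q122.FM.EN (Pool.Agent.Q122.FM.par φ) N d (1 / (φ.r * (d : ℝ))) +
      Pool.Agent.Q122.FM.ES (Pool.Agent.Q122.FM.par φ) N d (1 / (φ.r * (d : ℝ))) =
      gm (1 / 2 + (a : ℝ)) / 2 *
        ∑ i ∈ range N, ∑ m ∈ (Icc 1 N).filter Odd, g (2 ^ i * m) := by
    intro N
    unfold Pool.Agent.Q122.FM.EN Pool.Agent.Q122.FM.ES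
    rw [← Finset.sum_add_distrib, Finset.mul_sum]
    refine Finset.sum_congr rfl fun i _ => ?_
    have hz : 1 / (φ.r * (d : ℝ)) = 1 / (n : ℝ) := by
      rw [← hrd]
      push_cast
      rfl
    have e1 : ∀ F : ℕ → ℝ, ∑ m ∈ (Icc 1 N).filter (fun m => Odd m ∧ ¬ IsSquare m), F m +
        ∑ m ∈ (Icc 1 N).filter (fun m => Odd m ∧ IsSquare m), F m =
        ∑ m ∈ (Icc 1 N).filter Odd, F m := by
      intro F
      rw [← Finset.filter_filter, ← Finset.filter_filter, add_comm]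
      exact Finset.sum_filter_add_sum_filter_not _ _ _
    rw [e1, Finset.mul_sum]
    refine Finset.sum_congr rfl fun m hm => ?_
    rw [Finset.mem_filter, Finset.mem_Icc] at hm
    have hm0 : (0 : ℝ) < m := by exact_mod_cast hm.1.1
    show φ.η ^ i * js (φ.e * (d : ℤ)) m / Real.sqrt ((2 : ℝ) ^ i * m) *
      IG φ.a (((2 : ℝ) ^ i * m) ^ 2 * (1 / (φ.r * (d : ℝ)))) = _
    rw [hz, hη, hjs m hm.2, hpar, ← ha, hg]
    simp only
    rw [kron_two _ _ _ hm.2]
    unfold V
    have e2 : (((2 ^ i * m : ℕ) : ℝ) / Real.sqrt n) ^ 2 = ((2 : ℝ) ^ i * m) ^ 2 * (1 / (n : ℝ)) := by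
      rw [div_pow, Real.sq_sqrt hn0.le]
      push_cast
      ring
    rw [e2]
    generalize gm (1 / 2 + (a : ℝ)) = γ at hgm
    push_cast
    field_simp
  simp only [h3] at h2
  have h4 := h1.const_mul (gm (1 / 2 + (a : ℝ)) / 2)
  have h5 := tendsto_nhds_unique h4 h2
  rw [hpar, ← ha] at h5
  rw [hLT, hL]
  exact mul_left_cancel₀ (div_ne_zero hgm two_ne_zero) h5

end

end Pool.Agent.Q150.TQ
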